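import Pool.Agent.H639Z.OP.Basic

set_option autoImplicit false
open MeasureTheory Filter Topology
open scoped ENNReal

namespace Pool.Agent.H639Z.OP

variable {d : ℕ}

namespace CutAux

theorem st_lip : ∃ M : ℝ, 0 ≤ M ∧ ∀ s u : ℝ,
    |Real.smoothTransition s - Real.smoothTransition u| ≤ M * |s - u| := by
  have hS : ContDiff ℝ 1 Real.smoothTransition := Real.smoothTransition.contDiff
  have hc : Continuous (deriv Real.smoothTransition) := hS.continuous_deriv le_rfl
  obtain ⟨C, hC⟩ := (isCompact_Icc (a := (0 : ℝ)) (b := 1)).exists_bound_of_continuousOn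
    hc.continuousOn
  have hC0 : 0 ≤ C := (norm_nonneg _).trans (hC 0 (by simp))
  have hall : ∀ s, ‖deriv Real.smoothTransition s‖ ≤ C := by
    intro s
    by_cases h0 : s < 0
    · have : Real.smoothTransition =ᶠ[𝓝 s] fun _ => (0 : ℝ) := by
        filter_upwards [Iio_mem_nhds h0] with u hu
        exact Real.smoothTransition.zero_of_nonpos (le_of_lt hu)
      rw [this.deriv_eq]
      simpa using hC0
    by_cases h1 : 1 < s
    · have : Real.smoothTransition =ᶠ[𝓝 s] fun _ => (1 : ℝ) := by
        filter_upwards [Ioi_mem_nhds h1] with u hu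
        exact Real.smoothTransition.one_of_one_le (le_of_lt hu)
      rw [this.deriv_eq]
      simpa using hC0
    exact hC s ⟨not_lt.1 h0, not_lt.1 h1⟩
  refine ⟨C, hC0, fun s u => ?_⟩
  have := Convex.norm_image_sub_le_of_norm_deriv_le (f := Real.smoothTransition) (s := Set.univ)
    (fun x _ => (hS.differentiable (by simp)).differentiableAt) (fun x _ => hall x) convex_univ
    (Set.mem_univ u) (Set.mem_univ s)
  simpa [Real.norm_eq_abs] using this

theorem pd_le {θ : X d → ℝ} {K : ℝ} (hK : 0 ≤ K) (h : ∀ x y, |θ x - θ y| ≤ K * ‖x - y‖)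
    (i : Fin d) (x : X d) : |pd θ i x| ≤ K := by
  have h1 : ‖fderiv ℝ θ x‖ ≤ K :=
    norm_fderiv_le_of_lip' ℝ hK (Eventually.of_forall fun y => by
      simpa [Real.norm_eq_abs] using h y x)
  have h2 : ‖(Pi.single i (1 : ℝ) : X d)‖ ≤ 1 := by
    rw [Pi.norm_single]
    simp
  calc |pd θ i x| = ‖fderiv ℝ θ x (Pi.single i (1 : ℝ))‖ := rfl
    _ ≤ ‖fderiv ℝ θ x‖ * ‖(Pi.single i (1 : ℝ) : X d)‖ := ContinuousLinearMap.le_opNorm _ _
    _ ≤ K * 1 := by gcongr
    _ = K := mul_one K

theorem coord_le (x y : X d) (i : Fin d) : |x i - y i| ≤ ‖x - y‖ := by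
  simpa [Real.norm_eq_abs] using norm_le_pi_norm (x - y) i

end CutAux

open CutAux

theorem cut_slab : ∃ M₀ : ℝ, 0 ≤ M₀ ∧ ∀ (d : ℕ) (i : Fin d) (t r δ : ℝ), 0 < δ →
    ∃ θ : X d → ℝ, Cut θ (M₀ / δ) (slab i t (r + δ)) (slab i t r) := by
  obtain ⟨M, hM, hL⟩ := st_lip
  have hpi := Real.pi_pos
  refine ⟨Real.pi * M, by positivity, fun d i t r δ hδ => ?_⟩
  refine ⟨fun x => Real.pi / 2 * (Real.smoothTransition ((x i - t + r + δ) / δ) *
    Real.smoothTransition ((r + δ - (x i - t)) / δ)), ?_, ?_, ?_, ?_, ?_, ?_⟩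
  · refine contDiff_const.mul (ContDiff.mul ?_ ?_)
    · exact Real.smoothTransition.contDiff.comp (by fun_prop)
    · exact Real.smoothTransition.contDiff.comp (by fun_prop)
  · refine pd_le (by positivity) fun x y => ?_
    have hc := coord_le x y i
    have a1 := hL ((x i - t + r + δ) / δ) ((y i - t + r + δ) / δ)
    have a2 := hL ((r + δ - (x i - t)) / δ) ((r + δ - (y i - t)) / δ)
    have e1 : |(x i - t + r + δ) / δ - (y i - t + r + δ) / δ| = |x i - y i| / δ := by
      rw [← sub_div, abs_div, abs_of_pos hδ]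
      congr 2
      ring
    have e2 : |(r + δ - (x i - t)) / δ - (r + δ - (y i - t)) / δ| = |x i - y i| / δ := by
      rw [← sub_div, abs_div, abs_of_pos hδ, abs_sub_comm (x i)]
      congr 2
      ring
    rw [e1] at a1
    rw [e2] at a2
    set a := Real.smoothTransition ((x i - t + r + δ) / δ)
    set a' := Real.smoothTransition ((y i - t + r + δ) / δ)
    set b := Real.smoothTransition ((r + δ - (x i - t)) / δ)
    set b' := Real.smoothTransition ((r + δ - (y i - t)) / δ)
    have hb0 : 0 ≤ b := Real.smoothTransition.nonneg _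
    have hb1 : b ≤ 1 := Real.smoothTransition.le_one _
    have ha0 : 0 ≤ a' := Real.smoothTransition.nonneg _
    have ha1 : a' ≤ 1 := Real.smoothTransition.le_one _
    have h3 : |a * b - a' * b'| ≤ |a - a'| + |b - b'| := by
      have : a * b - a' * b' = (a - a') * b + a' * (b - b') := by ring
      rw [this]
      refine (abs_add_le _ _).trans (add_le_add ?_ ?_)
      · rw [abs_mul, abs_of_nonneg hb0]
        exact mul_le_of_le_one_right (abs_nonneg _) hb1
      · rw [abs_mul, abs_of_nonneg ha0]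
        exact mul_le_of_le_one_left (abs_nonneg _) ha1
    have h4 : M * (|x i - y i| / δ) ≤ M * (‖x - y‖ / δ) := by gcongr
    rw [← mul_sub, abs_mul, abs_of_pos (half_pos hpi)]
    calc Real.pi / 2 * |a * b - a' * b'| ≤ Real.pi / 2 * (2 * (M * (‖x - y‖ / δ))) := by
          gcongr
          linarith
      _ = Real.pi * M / δ * ‖x - y‖ := by
          field_simp
  · intro x
    have := Real.smoothTransition.nonneg ((x i - t + r + δ) / δ)
    have := Real.smoothTransition.nonneg ((r + δ - (x i - t)) / δ)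
    positivity
  · intro x
    refine mul_le_of_le_one_right (half_pos hpi).le ?_
    exact mul_le_one₀ (Real.smoothTransition.le_one _) (Real.smoothTransition.nonneg _)
      (Real.smoothTransition.le_one _)
  · intro x hx
    simp only [slab, Set.mem_setOf_eq, not_lt] at hx
    rcases le_abs.1 hx with h | h
    · rw [Real.smoothTransition.zero_of_nonpos (x := (r + δ - (x i - t)) / δ)
        (div_nonpos_of_nonpos_of_nonneg (by linarith) hδ.le)]
      simp
    · rw [Real.smoothTransition.zero_of_nonpos (x := (x i - t + r + δ) / δ)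
        (div_nonpos_of_nonpos_of_nonneg (by linarith) hδ.le)]
      simp
  · intro x hx
    simp only [slab, Set.mem_setOf_eq] at hx
    obtain ⟨h1, h2⟩ := abs_lt.1 hx
    rw [Real.smoothTransition.one_of_one_le (x := (r + δ - (x i - t)) / δ)
        ((one_le_div hδ).2 (by linarith)),
      Real.smoothTransition.one_of_one_le (x := (x i - t + r + δ) / δ)
        ((one_le_div hδ).2 (by linarith))]
    simp

theorem cut_ball (d : ℕ) : ∃ M₀ : ℝ, 0 ≤ M₀ ∧ ∀ R : ℝ, 0 < R →
    ∃ θ : X d → ℝ, Cut θ (M₀ / R) {x | R < ‖x‖} {x | 2 * R ≤ ‖x‖} := by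
  let b : ContDiffBump (0 : X d) := ⟨1, 2, one_pos, one_lt_two⟩
  have hb : Sm b := b.contDiff
  obtain ⟨K, hK⟩ := ContDiff.lipschitzWith_of_hasCompactSupport (𝕂 := ℝ) b.hasCompactSupport
    (b.contDiff (n := 1)) (by simp)
  have hpi := Real.pi_pos
  refine ⟨Real.pi / 2 * K, by positivity, fun R hR => ?_⟩
  refine ⟨fun x => Real.pi / 2 * (1 - b (R⁻¹ • x)), ?_, ?_, ?_, ?_, ?_, ?_⟩
  · exact contDiff_const.mul (contDiff_const.sub (hb.comp (by fun_prop)))
  · refine pd_le (by positivity) fun x y => ?_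
    have h1 := hK.dist_le_mul (R⁻¹ • y) (R⁻¹ • x)
    rw [Real.dist_eq, dist_eq_norm, ← smul_sub, norm_smul, norm_inv, Real.norm_eq_abs,
      abs_of_pos hR, norm_sub_rev] at h1
    rw [← mul_sub, abs_mul, abs_of_pos (half_pos hpi)]
    have e : 1 - b (R⁻¹ • x) - (1 - b (R⁻¹ • y)) = b (R⁻¹ • y) - b (R⁻¹ • x) := by ring
    rw [e]
    calc Real.pi / 2 * |b (R⁻¹ • y) - b (R⁻¹ • x)| ≤ Real.pi / 2 * (K * (R⁻¹ * ‖x - y‖)) := by
          gcongr
      _ = Real.pi / 2 * K / R * ‖x - y‖ := by
          field_simp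
  · intro x
    have := b.le_one (x := R⁻¹ • x)
    have : 0 ≤ 1 - b (R⁻¹ • x) := by linarith
    positivity
  · intro x
    have := b.nonneg (x := R⁻¹ • x)
    exact mul_le_of_le_one_right (half_pos hpi).le (by linarith)
  · intro x hx
    simp only [Set.mem_setOf_eq, not_lt] at hx
    have : b (R⁻¹ • x) = 1 := by
      apply b.one_of_mem_closedBall
      rw [mem_closedBall_zero_iff, norm_smul, norm_inv, Real.norm_eq_abs, abs_of_pos hR]
      change R⁻¹ * ‖x‖ ≤ 1
      rw [inv_mul_le_iff₀ hR]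
      linarith
    rw [this]
    simp
  · intro x hx
    simp only [Set.mem_setOf_eq] at hx
    have : b (R⁻¹ • x) = 0 := by
      apply b.zero_of_le_dist
      rw [dist_zero_right, norm_smul, norm_inv, Real.norm_eq_abs, abs_of_pos hR]
      change 2 ≤ R⁻¹ * ‖x‖
      rw [le_inv_mul_iff₀ hR]
      linarith
    rw [this]
    simp

theorem cut_half : ∃ M₀ : ℝ, ∀ (d : ℕ) (i : Fin d) (t : ℝ), ∃ η : X d → ℝ, Sm η ∧
    (∀ x, |η x| ≤ 1) ∧ (∀ l x, |pd η l x| ≤ M₀) ∧
    (∀ x, x i ≤ t → η x = 1 ∧ ∀ l, pd η l x = 0) ∧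
    (∀ x, t + 1 ≤ x i → η x = 0 ∧ ∀ l, pd η l x = 0) := by
  obtain ⟨M, hM, hL⟩ := st_lip
  refine ⟨M, fun d i t => ⟨fun x => Real.smoothTransition (t + 1 - x i), ?_, ?_, ?_, ?_, ?_⟩⟩
  · exact Real.smoothTransition.contDiff.comp (by fun_prop)
  · intro x
    rw [abs_of_nonneg (Real.smoothTransition.nonneg _)]
    exact Real.smoothTransition.le_one _
  · refine pd_le hM fun x y => (hL _ _).trans ?_
    have hc := coord_le x y i
    have e : |t + 1 - x i - (t + 1 - y i)| = |x i - y i| := by
      rw [abs_sub_comm (x i)]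
      congr 1
      ring
    rw [e]
    gcongr
  · intro x hx
    have h1 : Real.smoothTransition (t + 1 - x i) = 1 :=
      Real.smoothTransition.one_of_one_le (by linarith)
    refine ⟨h1, fun l => ?_⟩
    have : IsLocalMax (fun x : X d => Real.smoothTransition (t + 1 - x i)) x :=
      Eventually.of_forall fun y => by
        simp only [h1]
        exact Real.smoothTransition.le_one _
    simp [pd, this.fderiv_eq_zero]
  · intro x hx
    have h1 : Real.smoothTransition (t + 1 - x i) = 0 :=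
      Real.smoothTransition.zero_of_nonpos (by linarith)
    refine ⟨h1, fun l => ?_⟩
    have : IsLocalMin (fun x : X d => Real.smoothTransition (t + 1 - x i)) x :=
      Eventually.of_forall fun y => by
        simp only [h1]
        exact Real.smoothTransition.nonneg _
    simp [pd, this.fderiv_eq_zero]

end Pool.Agent.H639Z.OP
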